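import Pool.Agent.Y582.Neg2

set_option autoImplicit false

/-!
# The polarized relation for `ℵ₂ × ℵ₃` with `ℵ₁` below is independent of GCH
-/

namespace Pool.Agent.Results.MP_9ed2bb_lc.Independence

open Cardinal Pool.Agent.Helper669.Forcing Pool.Agent.Helper669.K Pool.Agent.Helper669.U
  Pool.Agent.Helper669.V

/-- The generalized continuum hypothesis (in the ground model). -/
def GCH : Prop := ∀ ν : Cardinal.{0}, ℵ₀ ≤ ν → 2 ^ ν = Order.succ ν

/-- In every generic extension by `P`: GCH holds, `ω₁` is the cardinal `ℵ₁`, `κ` is `ℵ₂` and `m`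
is `ℵ₃` (the three cardinals stay regular, all cardinals below `κ` have cardinality at most `ℵ₁`
and all cardinals below `m` have cardinality at most `κ`). -/
def ForcesGCHAndAlephs (P : Type) [Preorder P] (κ m : Cardinal.{0}) : Prop :=
  ∀ p : P, p ∈ ForcesGCH P ∧ p ∈ StaysRegular P ℵ₁ ∧ p ∈ StaysRegular P κ ∧
    p ∈ StaysRegular P m ∧ p ∈ CollapsedTo P ℵ₁ κ ∧ p ∈ CollapsedTo P κ m

/-- The sentence `for every partition of κ × m into two classes there are A ⊆ κ and B ⊆ m with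
|A| = |κ| and |B| = ℵ₁ such that A × B is contained in one of the classes`. When `κ = ℵ₂` and
`m = ℵ₃` in the extension, this is the relation of Q1. -/
def Relation (P : Type) [Preorder P] (κ m : Cardinal.{0}) : Set P :=
  PolarizedRel P κ.ord.ToType m.ord.ToType (ℵ₁ : Cardinal.{0}).ord.ToType

/-- Neither the relation nor its negation follows from GCH. -/
theorem result :
    (GCH → ∃ (P : Type) (_ : Preorder P), Nonempty P ∧ (∀ p : P, p ∈ CardinalsPreserved.{0, 0} P) ∧
      ForcesGCHAndAlephs P (ℵ_ 2) (ℵ_ 3) ∧ ∀ p : P, p ∈ fnot (Relation P (ℵ_ 2) (ℵ_ 3))) ∧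
    (GCH → ∀ κ m : Cardinal.{0}, IsHuge κ m →
      ∃ (P : Type) (_ : Preorder P), Nonempty P ∧ ForcesGCHAndAlephs P κ m ∧
        ∀ p : P, p ∈ Relation P κ m) := by
  constructor
  · intro hG
    have h1 : Order.succ (ℵ₁ : Cardinal.{0}) = ℵ_ 2 := by
      rw [succ_aleph]; norm_num
    have h2 : Order.succ (ℵ_ 2 : Cardinal.{0}) = ℵ_ 3 := by
      rw [succ_aleph]; norm_num
    obtain ⟨P, i, hne, h⟩ := Pool.Agent.Y582.Neg.main hG (aleph0_le_aleph 1)
    rw [h1, h2] at h
    refine ⟨P, i, hne, fun p => (h p).1, fun p => ?_, fun p => (h p).2.2.2.2⟩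
    obtain ⟨_, h3, h4, h5, _⟩ := h p
    refine ⟨h3, h4 _ isRegular_aleph_one, h4 _ ?_, h4 _ ?_, ?_, ?_⟩
    · rw [← h1]
      exact isRegular_succ (aleph0_le_aleph 1)
    · rw [← h2]
      exact isRegular_succ (aleph0_le_aleph 2)
    · rw [← h1]
      exact h5 _
    · rw [← h2]
      exact h5 _
  · intro hG κ m hh
    obtain ⟨P, i, hne, h⟩ := huge_iteration_gch hh hG
    refine ⟨P, i, hne, fun p => ?_, fun p => (h p).2.2.2.2.2.2.2⟩
    obtain ⟨h1, h2, ⟨h3, h4⟩, h5, h6, h7, _, _⟩ := h p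
    exact ⟨h7, h1, h2, h4 m h3 le_rfl, h5, h6⟩

end Pool.Agent.Results.MP_9ed2bb_lc.Independence
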